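import Pool.Agent.helper57.LQ.SpecC

/-!
# Project lq, modules BDA and SP6
-/

set_option autoImplicit false

open Finset PowerSeries

namespace Pool.Agent.LQ

theorem BDA (hLVL : LVL_stmt) (hBDS : BDS_stmt) : BDA_stmt := by
  intro m
  induction m using Nat.strong_induction_on with
  | _ m ih =>
    intro hm
    have h1 : 1 ≤ m := by
      obtain ⟨c, hc⟩ := hm
      omega
    exact hBDS m (hLVL m ih) m hm (by omega)

theorem SP6 (hSQ6 : SQ6_stmt) (hPS1 : PS1_stmt) : SP6_stmt := by
  intro m f hf
  induction hf using Submodule.span_induction with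
  | mem f hf =>
    obtain ⟨i, hi, hN, rfl⟩ := hf
    by_cases h24 : i % 24 = 1
    · obtain ⟨m', hm'⟩ : ∃ m', i = 1 + 24 * m' := ⟨i / 24, by omega⟩
      have hlt : m' < m := by omega
      have h := hSQ6 m'
      unfold SqL at h
      have e1 : 1 + 4 * (6 * m') = i := by omega
      rw [e1] at h
      have h2 : Psi 6 (tt ^ i) = (Psi 6 (tt ^ i) + tt ^ (1 + 6 * m')) + tt ^ (1 + 6 * m') := by
        rw [add_assoc, add_self_FF, add_zero]
      rw [h2]
      refine Submodule.add_mem _ (VV_mono _ _ (by omega) h) ?_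
      refine Submodule.subset_span ⟨1 + 6 * m', by omega, ?_, rfl⟩
      show Nat.gcd (1 + 6 * m') 6 = 1
      rw [mul_comm 6 m', Nat.gcd_add_mul_right_left]
      norm_num
    · rw [hPS1.1 i h24]
      exact Submodule.zero_mem _
  | zero => rw [map_zero]; exact Submodule.zero_mem _
  | add x y _ _ hx hy => rw [map_add]; exact Submodule.add_mem _ hx hy
  | smul a x _ hx => rw [map_smul]; exact Submodule.smul_mem _ _ hx

end Pool.Agent.LQ
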