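import Pool.Agent.helper57.LQ.SpecB

/-!
# Project lq (MP_ebc808_nt), Lemma Q: statements, part C

`KS m P B n = ∑ coeff b (T a (DD ^ m))` over `a, b ≥ 1`, `P a + B b = n`; `IsBD m A`: `coeff b (T a (DD ^ m)) = ∑_j coeff a (A_j(DD)) coeff b (DD ^ j)` for odd `a`, `b`,
with `A_j` of degree `≤ m + 1 - j`, `A_1 = X^m`; `LV M`: `Psi 2 (DD ^ (1 + 8 m)) = DD ^ (1 + 2 m) + lower` for `m < M`.
-/

set_option autoImplicit false

open Finset PowerSeries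

noncomputable section

namespace Pool.Agent.LQ

/-- **SEL2** (medium, 130 lines; uses TGR, EXP). Selberg's identity at level one.
Proof. `DD^(1+8m) = DD * (DD^m)(x^8)`. Let `c k = coeff k (DD^m)`, `c 0 = 0` (`m ≥ 1`). For odd `e`: `coeff (e^2) (DD^(1+8m)) = ∑_v c((e^2 - v^2)/8)` over the odd `v`, `0 < v < e` (`e^2 - v^2` is divisible by 8). Of `e - v`, `e + v` exactly one is divisible by 4;
write them as `4 a` and `2 b`, `b` odd: then `(e^2 - v^2)/8 = a b`, `e = 2 a + b`, and `v ↦ (a, b)` is a bijection onto the pairs of positive integers with `2 a + b = e` (`v = |2a - b|`). So `coeff (e^2) (DD^(1+8m)) = ∑_{2a+b=e} c(a b)`. For odd `n`: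
`coeff n (Psi 2 ..) = ∑_{e ∣ n} ∑_{2a+b=e} c(a b) = ∑_{2a'+b'=n} ∑_{d ∣ gcd(b', a')} c(a' b'/d^2)` with `d = n/e`, `(a', b') = (d a, d b)` (`d ∣ gcd (a', b')` implies `d ∣ n`) `= KS m 2 1 n` by `coeff_T`. -/
def SEL2_stmt : Prop := ∀ m : ℕ, 1 ≤ m → ∀ n : ℕ, Odd n →
  coeff n (Psi 2 (DD ^ (1 + 8 * m))) = KS m 2 1 n

/-- **SEL6** (medium, 170 lines; uses TGR, EXP). Selberg's identity at level 6.
Proof. `tt^(1+24m) = tt * (tt^3)^(8m) = tt * (ex 3 DD)^(8m) = tt * (DD^m)(x^24)`. `c k = coeff k (DD^m)`, `c 0 = 0`. For `e` prime to 6: `coeff (e^2) (tt^(1+24m)) = ∑_u c((e^2 - u^2)/24)`, `u` prime to 6, `0 < u < e`. Of `e - u`, `e + u` exactly one is divisible by 4 and exactly one is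
divisible by 3. If it is the same one, write `12 a`, `2 b`: `(e^2-u^2)/24 = a b`, `e = 6 a + b`; this is a bijection of these `u` with the pairs `a, b ≥ 1`, `6 a + b = e` (`u = |6a - b|`; `b` is prime to 6 since `e` is). Otherwise write `4 a` (divisible by 4) and `6 b`: `(e^2-u^2)/24 = a b`,
`e = 2 a + 3 b`, a bijection with the pairs `a, b ≥ 1`, `2 a + 3 b = e` (`u = |2a - 3b|`; `b` odd, `3 ∤ a`). So `coeff (e^2) = ∑_{6a+b=e} c(a b) + ∑_{2a+3b=e} c(a b)` and the sum over `e ∣ n` is `KS m 6 1 n + KS m 2 3 n` exactly as in SEL2. -/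
def SEL6_stmt : Prop := ∀ m : ℕ, 1 ≤ m → ∀ n : ℕ, n.Coprime 6 →
  coeff n (Psi 6 (tt ^ (1 + 24 * m))) = KS m 6 1 n + KS m 2 3 n

/-- **KSB** (medium, 130 lines; uses EXP, TGR). The sums `KS` as coefficients.
Proof. `m = 2^s m0`: `DD^m = ex (2^s) (DD^m0)`. For odd `b` and `a ≥ 1`: the divisors `d` of `gcd b a` are odd, `coeff (b a/d^2) (DD^m)` is `0` if `2^s ∤ a`, and if `a = 2^s a'` it is `coeff (b a'/d^2) (DD^m0)`, so `coeff b (T a (DD^m)) = coeff b (T a' (DD^m0))`; for even `a'` this is `0`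
(`b a'/d^2` is even, the exponents of `DD^m0` are odd). In `KS` with `P` even, `B` and `n` odd the `b` are odd. So `KS = ∑ coeff b (T a' (DD^m0))` over odd `a'`, odd `b`, `P 2^s a' + B b = n`. Insert IsBD. The right side: the coefficient at `n` of a product, with
`coeff (P 2^s a') (ex (P 2^s) f) = coeff a' f`, other coefficients `0`, and the same for `B`. The exponents of `aeval DD (A j) = ∑_i (A j).coeff i • DD^i` are odd (`i` odd), in particular not `0`; `A j = 0` for even `j`, and for odd `j` the exponents of `DD^j` are odd, not `0`. -/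
def KSB_stmt : Prop := ∀ (m0 : ℕ) (A : ℕ → Polynomial (ZMod 2)), Odd m0 → IsBD m0 A →
  ∀ s P B n : ℕ, 0 < P → Even P → Odd B → Odd n →
  KS (2 ^ s * m0) P B n = coeff n (∑ j ∈ range (m0 + 1),
    ex (P * 2 ^ s) (Polynomial.aeval DD (A j)) * ex B (DD ^ j))

/-- **PS1** (short, 50 lines; uses TGR). Trivial values of `Psi`.
Proof. `Psi 6 (tt^i)`: the coefficient at `n` prime to 6 is a sum of `coeff (e^2) (tt^i)`, `e ∣ n`, `e^2 = 1 mod 24`, zero unless `i = 1 mod 24`. `coeff (e^2) tt = 1` for all `e ∣ n`, so `coeff n (Psi 6 tt) = #divisors n`, odd iff `n` is a square (`d ↦ n/d` is an involution; or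
`Nat.Coprime.card_divisors_mul`, `Nat.divisors` of prime powers; compare the literature in Mathlib: `Nat.odd_card_divisors_iff` if it exists). The same for `DD`, `e^2 = 1 mod 8` for odd `e`. -/
def PS1_stmt : Prop := (∀ i : ℕ, i % 24 ≠ 1 → Psi 6 (tt ^ i) = 0) ∧ Psi 6 tt = tt ∧
  (∀ i : ℕ, i % 8 ≠ 1 → Psi 2 (DD ^ i) = 0) ∧ Psi 2 DD = DD

/-- **LVL** (medium, 120 lines; uses SEL2, KSB, PS1, TGR, EXP). From `BD` to the leading terms of `Psi 2`.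
Proof. First part, `m < M`. `m = 0`: `Psi 2 DD = DD`. `m ≥ 1`: `m = 2^s m0`, `m0` odd, `m0 ≤ m < M`, `A` from `BD m0`. For odd `n` by SEL2 and KSB (`P = 2`, `B = 1`, `ex 1 f = f`) the coefficients of `Psi 2 (DD^(1+8m))` and of `R = ∑_j ex (2 * 2^s) (aeval DD (A j)) * DD^j` agree; for even `n`
both are `0` (even exponents plus odd exponents; `A j = 0` for even `j`). So `Psi 2 (DD^(1+8m)) = R = ∑_j (aeval DD (A j))^(2^(s+1)) * DD^j = ∑_j ∑_i (A j).coeff i • DD^(2^(s+1) i + j)`. `j = 1`: `DD^(2^(s+1) m0 + 1) = DD^(1+2m)`. `j ≥ 3` odd, `i` odd, `i ≤ m0 + 1 - j`: `2^(s+1) i + j` is odd and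
`≤ 2m - 2^(s+1)(j-1) + j ≤ 2m - 2(j-1) + j ≤ 2m - 1`. Second part, `m ≤ M`, on the generators `DD^i`, `i` odd, `i < 1 + 8m`: `Psi 2 (DD^i) = 0` unless `i = 1 + 8 m'`, `m' < m ≤ M`, and then it is in `VV 2 DD (2 + 2m')` by the first part. -/
def LVL_stmt : Prop := ∀ M : ℕ, (∀ m0 < M, Odd m0 → BD m0) → LV M

/-- **GKL** (medium, 130 lines; uses GN2, ALG, AF3, SQR, AF2, SDF, HT3, HT5). The monomials `GG a b = T 3 ^ a * T 5 ^ b`.
Proof. Strong induction on `a + b`. `a = b = 0`: `nn 0 0 = 0`, `VV 2 DD 1 = 0`, `coeff 1 DD = 1`. Let `a = 2a' + α`, `b = 2b' + β`, `(a, b) ≠ (0, 0)`, `nn a' b' = 2 m'`, so `nn a b = 8 m' + 2α + 4β` (SDF) and `GG a b = GG a' b' * GG a' b' * (T 3 ^ α * T 5 ^ β)` (commutativity, ALG). HT3, HT5: `T 3` maps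
`VV (l+2)` to `VV l`, `T 5` maps `VV (l+4)` to `VV l`, so `T 3 ^ α * T 5 ^ β` maps `VV (l + 2α + 4β)` to `VV l`, and for `l = 1 + 8m'` it maps `DD^(l+2α+4β)` to `DD^l + VV l` (`l + 4 = 5`, `l + 6 = 7 mod 8`, `l + 2 = 3 mod 4`).
Case `m' < M`: then `nn a b < 8M`. By induction `G' = GG a' b'` kills `VV (1+2m')` and `coeff 1 (G' (DD^(1+2m'))) = 1`. SQR with `K = 1 + 8m'`, `L = 1 + 2m'` (`SqP 2 DD (2m')`): `G' G'` kills `VV (1+8m')`; `coeff 1 (G' (G' (DD^(1+8m')))) = coeff 1 (G' (Psi 2 (DD^(1+8m')))) = coeff 1 (G' (DD^(1+2m'))) = 1`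
by AF2 and `SqL 2 DD (2m')`. Case `m' ≥ M`: `nn a b ≥ 8M`; by induction `G'` kills `VV (1+2M)` (in both cases of the statement for `(a', b')`), SQR with `K = 1 + 8M`, `L = 1 + 2M` (`SqP 2 DD (2M)`): `G' G'` kills `VV (1+8M)`, which is preserved by `T 3`, `T 5` (AF3). -/
def GKL_stmt : Prop := ∀ M : ℕ, LV M → ∀ a b : ℕ,
  (nn a b < 8 * M → (∀ f ∈ VV 2 DD (1 + nn a b), GG a b f = 0) ∧
    coeff 1 (GG a b (DD ^ (1 + nn a b))) = 1) ∧
  (8 * M ≤ nn a b → ∀ f ∈ VV 2 DD (1 + 8 * M), GG a b f = 0)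

/-- **DRP** (medium, 80 lines; uses GN2, ALG, AF3, FUN, SDF, GKL). The monomials lower degrees by `nn a b`.
Proof. `f = GG a b (DD^i) ∈ VV (i+1)` (AF3). If `f ∉ VV (i - nn a b + 1)` there is (FUN 5, going down) an odd `l ≤ i` with `l > i - nn a b` (natural subtraction; in any case `l + nn a b ≥ i + 1`, `l ≥ 1`), `f + DD^l ∈ VV l`. `l - 1 < i ≤ 8M` is even: by SDF there are `a', b'` with `nn a' b' = l - 1 < 8M`. By GKL
`GG a' b'` kills `VV l` and `coeff 1 (GG a' b' (DD^l)) = 1`, so `coeff 1 (GG a' b' (GG a b (DD^i))) = 1`. But `GG a' b' * GG a b = GG (a+a') (b+b')` and `nn (a+a') (b+b') ≥ nn a b + l - 1 ≥ i` (superadditivity), so by GKL it kills `VV (1 + i)` (if `nn (..) < 8M`) or `VV (1 + 8M)`, both contain `DD^i`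
(`i ≤ 8M`). Contradiction. -/
def DRP_stmt : Prop := ∀ M : ℕ, LV M → ∀ i : ℕ, Odd i → i ≤ 8 * M → ∀ a b : ℕ,
  GG a b (DD ^ i) ∈ VV 2 DD (i - nn a b + 1)

/-- **BDS** (medium, 150 lines; uses GN2, ALG, AF1, AF3, FUN, SDF, GKL, DRP, GRD). The induction step for `BD`.
Proof. `m` odd, `m < 8M`. For odd `k ≤ m` let `G_k = GG a b` with `nn a b = k - 1` (SDF), `G_1 = 1`. By GKL `coeff 1 (G_k (DD^i)) = 0` for odd `i < k`, `= 1` for `i = k`. (1) For odd `j ≤ m` there is a finite set `K_j` of odd numbers in `[j, m]` such that `R_j = ∑_{k ∈ K_j} G_k` satisfies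
`coeff 1 (R_j (DD^i)) = [i = j]` for all odd `i ≤ m`: determine successively whether `k = j, j + 2, j + 4, ...` is in `K_j` from the equation for `i = k` (for `i < j` the equation holds); for `j = 1` take `K_1 = {1}`, `R_1 = 1` (`coeff 1 (DD^i) = [i = 1]`). (2) By DRP `R_j (DD^m) ∈ VV 2 DD (m + 2 - j)`, so
`R_j (DD^m) = aeval DD (A_j)` with a polynomial `A_j` with odd exponents `≤ m + 1 - j` (GRD 3), `A_1 = X^m`; put `A_j = 0` for the other `j`. (3) `a` odd: `T a (DD^m) ∈ VV 2 DD (m+1)` is `∑_{j ≤ m odd} τ_j DD^j`, and `τ_j = coeff 1 (R_j (T a (DD^m))) = coeff 1 (T a (R_j (DD^m)))` (ALG; `T a ∈ TT 2`)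
`= coeff a (aeval DD (A_j))`. Take the coefficient at `b`. -/
def BDS_stmt : Prop := ∀ M : ℕ, LV M → ∀ m : ℕ, Odd m → m < 8 * M → BD m

/-- **BDA** (short, 15 lines; uses LVL, BDS). Proof. Strong induction: if `BD m0` for all odd `m0 < m` then `LV m` (LVL with `M = m ≥ 1`) and `BD m` by BDS (`m < 8 m`). -/
def BDA_stmt : Prop := ∀ m : ℕ, Odd m → BD m

/-- **SQ6** (medium-long, 200 lines; uses BDA, SEL6, KSB, PS1, UID, P3D, GN6, PSV, FUN, GRD, TGR, EXP). The squaring lemma: `Psi 6 (tt^(1+24m)) = tt^(1+6m) + lower`.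
Proof. `m = 0`: PS1. `m ≥ 1`: `m = 2^s m0`, `m0` odd, `A` from BDA. (1) For `n` prime to 6: `coeff n (Psi 6 (tt^(1+24m))) = KS m 6 1 n + KS m 2 3 n` (SEL6) is (KSB) the coefficient at `n` of `∑_j ex (6 2^s) (A_j(DD)) * DD^j + ∑_j ex (2 2^s) (A_j(DD)) * ex 3 (DD^j)`. Since `3 ∤ n` this is the coefficient at `n` of
`R = ∑_j ex (6 2^s) (A_j(DD)) * P3 (DD^j) + ∑_j ex (2 2^s) (P3 (A_j(DD))) * ex 3 (DD^j)`; the exponents of `R` are prime to 6 (`A_j = 0` for even `j`, exponents of `DD^j` odd). So `Psi 6 (tt^(1+24m)) = R`.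
(2) `ex 3 DD = tt^3`, so `ex (6 2^s) (A_j(DD)) = A_j(tt^3)^(2^(s+1))`, `ex (2 2^s) (P3 (A_j(DD))) = (P3 (A_j(DD)))^(2^(s+1))`, `ex 3 (DD^j) = tt^(3j)`, `P3 (A_j(DD)) = ∑_i (A_j)_i P3 (DD^i)`; by P3D and UID (`tt = uu + uu^4`) every term is the value at `uu` of a polynomial. Degrees (in `uu`; `tt` has degree 4, `DD^i` in `P3` degree
`12 i - 8`, `i + j ≤ m0 + 1`, `i, j` odd): the `j = 1` term of the first sum is `tt^(6m) * tt = tt^(1+6m)` (`A_1 = X^m0`, `P3 DD = tt`); `j ≥ 3` in the first sum: `≤ 24 2^s (m0 + 1 - j) + 12 j - 8 ≤ 24 m - 20`; second sum: `≤ 2 2^s (12 (m0 + 1 - j) - 8) + 12 j ≤ 24 m - 4`. So `R + tt^(1+6m) = aeval uu Q`, `Q.natDegree ≤ 24m - 4`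
(if `m = m0 = 1` etc. check the natural subtractions: `24 m - 4 ≥ 20`). (3) By PSV `R ∈ VV 6 tt (2+24m)`, so `R + tt^(1+6m) = ∑_{i ∈ I} tt^i`, `I` a finite set of numbers prime to 6 (GRD 3) `= aeval uu (∑_{i ∈ I} (X + X^4)^i)`. `aeval uu` is injective (`uu = x + ..`, `coeff 0 uu = 0`: the lowest coefficient of `P ≠ 0` survives). So
`Q = ∑_{i ∈ I} (X + X^4)^i`, of degree `4 max I`; hence `max I ≤ 6m - 1`, and `R + tt^(1+6m) ∈ VV 6 tt (6m) ≤ VV 6 tt (1+6m)`. -/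
def SQ6_stmt : Prop := ∀ m : ℕ, SqL 6 tt (6 * m)

/-- **SP6** (short, 30 lines; uses SQ6, PS1). Proof. On the generators `tt^i`, `i` prime to 6, `i < 1 + 24m`: `Psi 6 (tt^i) = 0` unless `i = 1 + 24m'`, `m' < m` (PS1), and then `Psi 6 (tt^i) ∈ VV 6 tt (2+6m')` by SQ6 (`VV_mono`). -/
def SP6_stmt : Prop := ∀ m : ℕ, SqP 6 tt (6 * m)

/-- **STR** (medium, 90 lines; uses GN6, ALG, AF3, FUN, SQR, SP6, PS1). Nilpotency: operators which kill `tt` strictly lower degrees.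
Proof. `A ∈ TT 6`, `coeff 1 (A tt) = 0`. `A tt ∈ VV 6 tt 2 = span {tt}` (AF3), so `A tt = 0` and `A` kills `VV 2`. For `f ∈ VV 25`: `Psi 6 f ∈ VV 2` (PS1: only the generator `tt` contributes), so by SQR (`K = 25`, `L = 2`) `A^2` kills `VV 25`. If `B = A^(2^r) ∈ TT 6` kills `VV (1 + 6 4^r)` then by SQR and SP6 (`m = 4^r`)
`B * B` kills `VV (1 + 24 4^r)`. So `A^(2^r)` kills `VV (1 + 6 4^r)` for all `r ≥ 1`. Let `i` be prime to 6: `A (tt^i) ∈ VV (i+1)`; if it is not in `VV i` then `A (tt^i) + tt^i ∈ VV i` (FUN 5), and by induction `A^k (tt^i) + tt^i ∈ VV i` for all `k` (AF3), so `tt^i ∈ VV i` for `k = 2^r` large, contradicting FUN 4. -/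
def STR_stmt : Prop := ∀ A ∈ TT 6, coeff 1 (A tt) = 0 → ∀ i : ℕ, i.Coprime 6 → A (tt ^ i) ∈ VV 6 tt i

/-- **T7B** (medium, 90 lines; uses GN6, ALG, AF2, AF3, SQR, SQ6, SP6, SDF, HT7). The powers of `T 7`.
Proof. Strong induction on `b`. `b = 0`: `VV 6 tt 1 = 0` and `coeff 1 tt = 1`. `b = 2b'`, `b' ≥ 1`: `m = sd b'`, `sd b = 4m`. `A = T 7 ^ b'` kills `VV (1+6m)`, `coeff 1 (A (tt^(1+6m))) = 1`. SQR, SP6: `A * A = T 7 ^ b` kills `VV (1+24m)`; `coeff 1 (A (A (tt^(1+24m)))) = coeff 1 (A (Psi 6 (tt^(1+24m))))` (AF2)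
`= coeff 1 (A (tt^(1+6m))) = 1` (SQ6). `b = 2b' + 1`: `l = 1 + 6 sd (2b') = 1 + 24 sd b'`, `1 + 6 sd b = l + 6`. By HT7 `T 7` maps `VV (l+6)` to `VV l` and `tt^(l+6)` to `tt^l + VV l` (`l + 6 = 7 mod 24`, so `= 7 mod 12`); apply `T 7 ^ (2b')`. -/
def T7B_stmt : Prop := ∀ b : ℕ, (∀ f ∈ VV 6 tt (1 + 6 * sd b), (T 7 ^ b) f = 0) ∧
  coeff 1 ((T 7 ^ b) (tt ^ (1 + 6 * sd b))) = 1

/-- **Q7** (medium, 150 lines; uses TGR). `q = u^2 + 6 c^2` for primes `q = 7 mod 24`, in exactly one way.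
Proof. `tt^7 = tt * (tt^3)^2`, `tt^3 = ex 3 DD` has coefficient `1` exactly at the `3 c^2`, `c` odd, so `(tt^3)^2` at the `6 c^2`. The coefficient of `tt^7` at `q` is the number modulo 2 of the pairs `(u, c)`, `u` prime to 6, `c` odd (`u, c > 0`), `u^2 + 6 c^2 = q`. Existence: `-6` is a square modulo `q` (`(-1/q) = -1`, `(2/q) = 1`,
`(3/q) = -(q/3) = -1`; see Pool/Agent/*/OD/TS.lean for the class 5, the same tools), say `r^2 = -6`; Thue: `(x, y) ≠ (0, 0)`, `|x|, |y| < √q`, `x = r y mod q`, so `x^2 + 6 y^2 = k q`, `1 ≤ k ≤ 6`. Modulo 3: `x^2 = k`, so `k = 1, 3, 4, 6`. `k = 1`: done. `k = 4`: `x`, then `y` even (`6y^2 = 4q - x^2`, `x` even, `6 y^2 = 0 mod 4`), divide by 4.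
`k = 3`: `x = 3x'`, `q = 3x'^2 + 2y^2`, modulo 3: `1 = 2 y^2`, impossible. `k = 6`: `x = 6x'`, `q = 6x'^2 + y^2`. done. From `q = x^2 + 6y^2`, `q = 7 mod 8`: `x` odd, `6y^2 = 6 mod 8`, `y` odd; `3 ∤ x`. Uniqueness: as in the docstring of `R5_stmt` of Pool/Agent/helper83/OD/Spec.lean
(proved in Pool/Agent/*/OD/R5.lean): `q^2 = (uu' + 6cc')^2 + 6(uc' - cu')^2 = (uu' - 6cc')^2 + 6(uc' + cu')^2`, `q` divides `(uc')^2 - (cu')^2 = q (c'^2 - c^2)`; `q ∣ uc' + cu' > 0` gives `6 q^2 ≤ q^2`, false; `q ∣ uc' - cu'` gives `uc' = cu'`, and `u = u'`, `c = c'` as `gcd (u, c) = 1`. -/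
def Q7_stmt : Prop := ∀ q : ℕ, q.Prime → q % 24 = 7 → coeff q (tt ^ 7) = 1

/-- **OTH** (medium-long, 170 lines; uses GN6, ALG, AF1, AF3, FUN, GRD, TGR, HT7, Q7). Other primes `q = 7 mod 24`: `T q = T 7 * (1 + ρ)` on `VV K`.
Proof. We may assume `K ≥ 8`. `W = span {tt^i : i < K, i % 24 = 7}`. `T 7` is injective on `W`: the sum over a finite set `I ≠ ∅` of such `i` has image with leading term `tt^(max I - 6)` (HT7, `i % 12 = 7`), which is not `0` (FUN 4). So there is a linear map `φ : FF → ZMod 2` with `φ (T 7 f) = coeff q f` for `f ∈ W`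
(`LinearMap.exists_leftInverse_of_injective` for `T 7` restricted to `W`). FUN 3: `S` with `φ f = ∑_{n ∈ S} coeff n f` for `f ∈ VV K`, `S` prime to 6. Let `S1 = {n ∈ S : n % 24 = 1}`, `U = ∑_{n ∈ S1} T n ∈ TT 6`. For `f ∈ W`: `T 7 f ∈ VV K`, its exponents are `7*7 = 1 mod 24`, so
(*) `coeff q f = ∑_{n ∈ S1} coeff n (T 7 f) = coeff 1 (U (T 7 f))`. Claim `T q f = T 7 (U f)` for `f ∈ VV K`; let `f = tt^i`. Both sides are in `VV K`; let `n` be prime to 6. `coeff n (T q f) = coeff 1 (T q (T n f)) = coeff q (T n f)`, `coeff n (T 7 (U f)) = coeff 1 (T 7 (U (T n f))) = coeff 1 (U (T 7 (T n f)))` (AF1, ALG). `T n f ∈ VV K` has the exponents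
`n i mod 24`. If `n i = 7 mod 24` then `T n f ∈ W` (GRD 3 and 1) and (*) applies. If not, `coeff q (T n f) = 0` as `q = 7 mod 24`, and the exponents of `T 7 (T n f)` are `7 n i ≠ 1 mod 24`, so its coefficients at `S1` are `0`. `ρ = U + 1 ∈ TT 6`, `f + ρ f = U f` (characteristic 2). `coeff 1 (U tt)`: HT7 gives `T 7 (tt^7) = tt` (`VV 1 = 0`), so by (*)
with `f = tt^7 ∈ W` `coeff 1 (U tt) = coeff q (tt^7) = 1` (Q7), and `coeff 1 (ρ tt) = 1 + 1 = 0`. -/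
def OTH_stmt : Prop := ∀ q : ℕ, q.Prime → q % 24 = 7 → ∀ K : ℕ, ∃ ρ ∈ TT 6, coeff 1 (ρ tt) = 0 ∧
  ∀ f ∈ VV 6 tt K, T q f = T 7 (f + ρ f)

/-- **LMQ** (medium, 100 lines; uses GN6, HRC, ALG, AF3, STR, T7B, OTH). Lemma Q. `S` a finite set of primes `q = 7 mod 24`.
Proof. Let `K` be given (`K = 2 + 6 sd #S`). Claim: for every finite set `S` of such primes and every `i < K` prime to 6 there is `h ∈ VV 6 tt i` with `T (∏ S) (tt^i) = (T 7 ^ #S) (tt^i + h)`. Induction on `S` (`Finset.induction_on`). `S = ∅`: `T 1 = 1`, `h = 0`. `S' = insert q S`: `q ∤ ∏ S`, so `T (q ∏ S) = T q * T (∏ S)` (HRC);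
`T q ((T 7 ^ #S) (tt^i + h)) = (T 7 ^ #S) (T q (tt^i + h))` (ALG) `= (T 7 ^ #S) (T 7 (tt^i + h + ρ (tt^i + h)))` (OTH; `tt^i + h ∈ VV K`), and `h + ρ (tt^i + h) ∈ VV i` (STR for `ρ (tt^i)`, AF3 for `ρ h`). Now `coeff (∏ S) f = coeff 1 (T (∏ S) f)`. `i < 1 + 6 sd #S`: `tt^i + h ∈ VV (1 + 6 sd #S)` is killed by `T 7 ^ #S` (T7B).
`i = 1 + 6 sd #S`: `(T 7 ^ #S) h = 0` and the coefficient is `1` (T7B). -/
def LMQ_stmt : Prop := ∀ S : Finset ℕ, (∀ q ∈ S, q.Prime ∧ q % 24 = 7) →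
  (∀ i : ℕ, i < 1 + 6 * sd #S → i.Coprime 6 → coeff (∏ q ∈ S, q) (tt ^ i) = 0) ∧
  coeff (∏ q ∈ S, q) (tt ^ (1 + 6 * sd #S)) = 1

/-- **NIL** (short, 70 lines; uses GN6, HRC, ALG, AF3, STR, TGR). Products of many primes `q = 7 mod 24`.
Proof. `T q` for such `q` strictly lowers degrees: `coeff 1 (T q tt) = coeff q tt = 0` (`q` is not a square; TGR), STR. So `T q` maps `VV 6 tt (l+1)` to `VV 6 tt l` for every `l`. `T (m ∏ S) = T m * ∏_{q ∈ S} T q`: induction on `S` with HRC (`q ∤ m ∏ S`). For `i < #S` the operators `T q`, `q ∈ S`, map `tt^i ∈ VV (i+1)` successively to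
`VV (i+1-#S) = VV 0 = 0`. -/
def NIL_stmt : Prop := ∀ (S : Finset ℕ) (m : ℕ), (∀ q ∈ S, q.Prime ∧ q % 24 = 7 ∧ ¬ q ∣ m) →
  m.Coprime 6 → ∀ i : ℕ, i < #S → i.Coprime 6 → coeff (m * ∏ q ∈ S, q) (tt ^ i) = 0

/-- The interface for project p2 (helper7): the three statements for the Laurent series `vvx`. Proved in the assembly from
LMQ, NIL, TGR, SDF (`(ofPowerSeries f).coeff n = coeff n f`; a single prime is `#S = 1`, `1 + 6 sd 1 = 7`). -/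
def LQ_stmt : Prop :=
  (∀ k : ℕ, 1 ≤ k → ∀ S : Finset ℕ, (∀ q ∈ S, q.Prime ∧ q % 24 = 7) → #S = 2 ^ k - 2 →
    (∀ i : ℕ, i < 2 * 4 ^ k - 7 → i.Coprime 6 → (Pool.Agent.EP.vvx ^ i).coeff ((∏ q ∈ S, q : ℕ) : ℤ) = 0) ∧
    (Pool.Agent.EP.vvx ^ (2 * 4 ^ k - 7)).coeff ((∏ q ∈ S, q : ℕ) : ℤ) = 1) ∧
  (∀ q : ℕ, q.Prime → q % 24 = 7 →
    (∀ i : ℕ, i < 7 → i.Coprime 6 → (Pool.Agent.EP.vvx ^ i).coeff (q : ℤ) = 0) ∧
    (Pool.Agent.EP.vvx ^ 7).coeff (q : ℤ) = 1) ∧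
  ∀ (S : Finset ℕ) (m : ℕ), (∀ q ∈ S, q.Prime ∧ q % 24 = 7 ∧ ¬ q ∣ m) → m.Coprime 6 →
    ∀ i : ℕ, i < #S → i.Coprime 6 → (Pool.Agent.EP.vvx ^ i).coeff ((m * ∏ q ∈ S, q : ℕ) : ℤ) = 0

end Pool.Agent.LQ
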