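import Mathlib
import Pool.Agent.helper81.PMGauss
import Pool.Agent.helper12.PE.Err

/-!
# Project lq (MP_ebc808_nt), Lemma Q: definitions

Paper proof: /team-store/TT_ebc808_lemmaQ_helper57.md
-/

set_option autoImplicit false

open Finset PowerSeries

noncomputable section

namespace Pool.Agent.LQ

/-- Power series over the field with two elements. -/
abbrev FF : Type := PowerSeries (ZMod 2)

theorem add_self_FF (f : FF) : f + f = 0 := Pool.Agent.helper81.add_self' f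

/-- The Hecke operator `T_n` modulo 2. -/
def T (n : ℕ) : Module.End (ZMod 2) FF where
  toFun f := PowerSeries.mk fun m => ∑ d ∈ (Nat.gcd m n).divisors, coeff (m * n / d ^ 2) f
  map_add' f g := by
    ext m
    simp [Finset.sum_add_distrib]
  map_smul' c f := by
    ext m
    simp [Finset.mul_sum]

theorem coeff_T (n m : ℕ) (f : FF) :
    coeff m (T n f) = ∑ d ∈ (Nat.gcd m n).divisors, coeff (m * n / d ^ 2) f := by
  simp [T]

/-- The operator `Psi`. -/
def Psi (N : ℕ) : FF →ₗ[ZMod 2] FF where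
  toFun f := PowerSeries.mk fun n =>
    if n.Coprime N then ∑ e ∈ n.divisors, coeff (e ^ 2) f else 0
  map_add' f g := by
    ext m
    simp only [coeff_mk, map_add, Finset.sum_add_distrib]
    split_ifs
    · rfl
    · simp
  map_smul' c f := by
    ext m
    simp only [coeff_mk, RingHom.id_apply, map_smul, smul_eq_mul]
    split_ifs
    · rw [Finset.mul_sum]
    · simp

theorem coeff_Psi (N n : ℕ) (f : FF) :
    coeff n (Psi N f) = if n.Coprime N then ∑ e ∈ n.divisors, coeff (e ^ 2) f else 0 := by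
  simp [Psi]

/-- The space spanned by the `T_n`, `n` prime to `N`. -/
def TT (N : ℕ) : Submodule (ZMod 2) (Module.End (ZMod 2) FF) :=
  Submodule.span (ZMod 2) {A | ∃ n : ℕ, n.Coprime N ∧ A = T n}

/-- The space spanned by the `g ^ i`, `i < l`, `i` prime to `N`. -/
def VV (N : ℕ) (g : FF) (l : ℕ) : Submodule (ZMod 2) FF :=
  Submodule.span (ZMod 2) {f | ∃ i : ℕ, i < l ∧ i.Coprime N ∧ f = g ^ i}

theorem VV_mono (N : ℕ) (g : FF) {l l' : ℕ} (h : l ≤ l') : VV N g l ≤ VV N g l' := by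
  apply Submodule.span_mono
  rintro f ⟨i, hi, hN, rfl⟩
  exact ⟨i, lt_of_lt_of_le hi h, hN, rfl⟩

/-- `g` is a generator of level `N`. -/
structure Gen (N : ℕ) (g : FF) : Prop where
  one_lt : 1 < N
  c0 : coeff 0 g = 0
  c1 : coeff 1 g = 1
  sup : ∀ i : ℕ, i.Coprime N → ∀ m : ℕ, coeff m (g ^ i) ≠ 0 → m.Coprime N
  hec : ∀ n : ℕ, n.Coprime N → ∀ i : ℕ, i.Coprime N → T n (g ^ i) ∈ VV N g (i + 1)

/-- `Psi` maps `VV (1 + 4 μ)` to `VV (1 + μ)`. -/
def SqP (N : ℕ) (g : FF) (μ : ℕ) : Prop := ∀ f ∈ VV N g (1 + 4 * μ), Psi N f ∈ VV N g (1 + μ)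

/-- `Psi (g ^ (1 + 4 μ)) = g ^ (1 + μ) + lower terms`. -/
def SqL (N : ℕ) (g : FF) (μ : ℕ) : Prop :=
  Psi N (g ^ (1 + 4 * μ)) + g ^ (1 + μ) ∈ VV N g (1 + μ)

/-- `eta (24 z)` modulo 2. -/
def tt : FF := X * PowerSeries.expand 24 (by norm_num) Pool.Agent.helper81.EE

/-- `Delta` modulo 2. -/
def DD : FF := Pool.Agent.helper12.PE.DD

theorem DD_def : DD = X * Pool.Agent.helper81.EE ^ 24 := rfl

open Classical in
/-- The sum of `x ^ (m ^ 2)`, `m > 0` not divisible by 3. -/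
def uu : FF := PowerSeries.mk fun n => if ∃ m : ℕ, ¬ 3 ∣ m ∧ n = m ^ 2 then 1 else 0

/-- The part of a series with exponents not divisible by 3. -/
def P3 (f : FF) : FF := PowerSeries.mk fun n => if 3 ∣ n then 0 else coeff n f

/-- The substitution `x ↦ x ^ p`. -/
def ex (p : ℕ) (f : FF) : FF := PowerSeries.mk fun n => if p ∣ n then coeff (n / p) f else 0

theorem ex_eq {p : ℕ} (hp : p ≠ 0) (f : FF) : ex p f = PowerSeries.expand p hp f := by
  ext n
  unfold ex
  rw [coeff_mk, PowerSeries.coeff_expand]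

/-- The number with the binary digits of `n`, read in base 4. -/
def sd (n : ℕ) : ℕ := Nat.ofDigits 4 (Nat.digits 2 n)

/-- The exponent of the monomial `T_3 ^ a T_5 ^ b`. -/
def nn (a b : ℕ) : ℕ := 2 * sd a + 4 * sd b

/-- The monomial. -/
def GG (a b : ℕ) : Module.End (ZMod 2) FF := T 3 ^ a * T 5 ^ b

/-- The sum of the coefficients of `x ^ b` in `T_a (Delta ^ m)` over the `a, b ≥ 1` with `P a + B b = n`. -/
def KS (m P B n : ℕ) : ZMod 2 :=
  ∑ x ∈ (range (n + 1) ×ˢ range (n + 1)).filter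
    (fun x => 0 < x.1 ∧ 0 < x.2 ∧ P * x.1 + B * x.2 = n), coeff x.2 (T x.1 (DD ^ m))

/-- The polynomials `A_j` describe the operators `T_a` on `Delta ^ m`. -/
def IsBD (m : ℕ) (A : ℕ → Polynomial (ZMod 2)) : Prop :=
  (∀ j i : ℕ, (A j).coeff i ≠ 0 → Odd i ∧ Odd j ∧ i + j ≤ m + 1) ∧
  A 1 = Polynomial.X ^ m ∧
  ∀ a b : ℕ, Odd a → Odd b → coeff b (T a (DD ^ m)) =
    ∑ j ∈ range (m + 1), coeff a (Polynomial.aeval DD (A j)) * coeff b (DD ^ j)

/-- There are such polynomials. -/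
def BD (m : ℕ) : Prop := ∃ A : ℕ → Polynomial (ZMod 2), IsBD m A

/-- The conclusions at level one up to `M`. -/
def LV (M : ℕ) : Prop := (∀ m < M, SqL 2 DD (2 * m)) ∧ ∀ m ≤ M, SqP 2 DD (2 * m)

end Pool.Agent.LQ
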