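import Pool.Agent.helper57.LQ.SpecC

/-!
# Project lq, module LQF: the interface
-/

set_option autoImplicit false

open Finset PowerSeries

namespace Pool.Agent.LQ

theorem LQF_coeff (hTGR : TGR_stmt) (i n : ℕ) :
    (Pool.Agent.EP.vvx ^ i).coeff (n : ℤ) = coeff n (tt ^ i) := by
  have h := hTGR.2.2.2.2.2
  rw [← h, ← map_pow, HahnSeries.ofPowerSeries_apply_coeff]

theorem LQF (hLMQ : LMQ_stmt) (hNIL : NIL_stmt) (hTGR : TGR_stmt) (hSDF : SDF_stmt) : LQ_stmt := by
  obtain ⟨hs0, hs1, hs2, hs3, hs4⟩ := hSDF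
  refine ⟨?_, ?_, ?_⟩
  · intro k hk S hS hc
    obtain ⟨h1, h2⟩ := hLMQ S hS
    rw [hc, hs4 k hk] at h1 h2
    refine ⟨fun i hi h6 => ?_, ?_⟩
    · rw [LQF_coeff hTGR]
      exact h1 i hi h6
    · rw [LQF_coeff hTGR]
      exact h2
  · intro q hq hq7
    obtain ⟨h1, h2⟩ := hLMQ {q} (by
      intro x hx
      rw [Finset.mem_singleton] at hx
      subst hx
      exact ⟨hq, hq7⟩)
    have hsd : sd 1 = 1 := by
      have := (hs1 0).2
      rw [hs0] at this
      simpa using this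
    rw [Finset.card_singleton, hsd, Finset.prod_singleton] at h1 h2
    refine ⟨fun i hi h6 => ?_, ?_⟩
    · rw [LQF_coeff hTGR]
      exact h1 i (by omega) h6
    · rw [LQF_coeff hTGR]
      exact h2
  · intro S m hS hm i hi h6
    rw [LQF_coeff hTGR]
    exact hNIL S m hS hm i hi h6

end Pool.Agent.LQ
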