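import Pool.Agent.helper57.LQ.Defs

/-!
# Project lq (MP_ebc808_nt), Lemma Q: statements, part A (formal Hecke operators)

All power series are over the field with two elements, `x` is the variable. `T n` is the formal Hecke operator
(`coeff_T`), `TT N` the span of the `T n`, `n` prime to `N` (`N = 2` or `6` in the applications), `VV N g l` the span of the
`g ^ i`, `i < l`, `i` prime to `N`. In characteristic 2: `f + f = 0` (`add_self_FF`). For an operator `A : Module.End (ZMod 2) FF`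
products are compositions (`Module.End.mul_apply`).

RULES. Row `XX`: file `Pool/Agent/<seat>/LQ/XX.lean`, import the spec file which contains `XX_stmt`, `namespace Pool.Agent.LQ`,
auxiliary lemmas prefixed `XX_`, other rows only as hypotheses `(hYY : YY_stmt)`.
-/

set_option autoImplicit false

open Finset PowerSeries

noncomputable section

namespace Pool.Agent.LQ

/-- **HRC** (medium, 80 lines; uses `Pool.Agent.EP.JREC`, proved in Pool/Agent/helper99/EP/JREC.lean). The Hecke relation.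
Proof. For `f` put `a M = coeff M.toNat f` for `M : ℤ`, `0 ≤ M`, and `a M = 0` for `M < 0`. For `j > 0` and `m : ℕ` the coefficient of
`T j f` at `m` is `JG a j m` (the divisors of `gcd m j` are the divisors `d` of `j` with `d ∣ m`; `(j m)/d^2` is the same in `ℕ` and `ℤ`).
For the prime `l` the divisors of `gcd m l` are `1` and, if `l ∣ m`, also `l`: the coefficient of `T l h` at `m` is
`coeff (l m) h + [l ∣ m] coeff (m/l) h` (`m l/l^2 = m/l`). With `h = T j f` this is the left side of JREC, the right side of JREC is the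
coefficient of `T (l j) f + [l ∣ j] T (j/l) f`. -/
def HRC_stmt : Prop := ∀ l j : ℕ, l.Prime → 0 < j →
  T l * T j = T (l * j) + if l ∣ j then T (j / l) else 0

/-- **ALG** (medium, 100 lines; uses HRC). `TT N` contains `1`, is closed under products and commutative.
Proof. `T 1 = 1` (divisors of `gcd m 1 = 1`). Numbers prime to `N > 1` are positive, and divisors and products of numbers prime to `N` are prime to
`N`. (1) For a prime `l` and `k` prime to `N`: `T l * T k = T k * T l`. Strong induction on `k`. `k = 1` clear. Otherwise `k = p k'`, `p` prime, and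
HRC gives `T k = T p * T k' - [p ∣ k'] T (k'/p)`; `T l` commutes with `T p` (HRC for `(l, p)` and `(p, l)`: `T (l p)` in both cases, and `l ∣ p` iff `l = p` iff
`p ∣ l`), and with `T k'`, `T (k'/p)` by induction. (2) By strong induction on `n` (again `n = p n'`) `T n * T k = T k * T n` for all `n`, `k` prime to `N`.
(3) `T l * A ∈ TT N` for `l` prime, prime to `N`, `A ∈ TT N`: HRC and span induction. (4) `T n * A ∈ TT N` by strong induction on `n`
(`T n * A = T p * (T n' * A) - [..] T (n'/p) * A`). (5) Span induction in both arguments. -/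
def ALG_stmt : Prop := ∀ N : ℕ, 1 < N → (1 : Module.End (ZMod 2) FF) ∈ TT N ∧
  ∀ A ∈ TT N, ∀ B ∈ TT N, A * B ∈ TT N ∧ A * B = B * A

/-- **AF1** (short, 40 lines; uses ALG). `coeff n (A f) = coeff 1 (A (T n f))`.
Proof. `coeff 1 (T n h) = coeff n h` for all `h` (`gcd 1 n = 1`). `A` commutes with `T n`: `coeff n (A f) = coeff 1 (T n (A f)) = coeff 1 (A (T n f))`. -/
def AF1_stmt : Prop := ∀ N : ℕ, 1 < N → ∀ A ∈ TT N, ∀ (f : FF) (n : ℕ), n.Coprime N →
  coeff n (A f) = coeff 1 (A (T n f))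

/-- **AF2** (short, 50 lines; uses ALG, AF1). `coeff 1 (A (A f)) = coeff 1 (A (Psi N f))`.
Proof. Span induction on `A`. `A = T n`, `n` prime to `N`: `coeff 1 (T n (T n f)) = coeff n (T n f)` is the sum of the `coeff (n n/d^2) f = coeff ((n/d)^2) f`
over `d ∣ n`, i.e. of the `coeff (e^2) f`, `e ∣ n` (`Nat.sum_div_divisors`), which is `coeff n (Psi N f) = coeff 1 (T n (Psi N f))`. If it holds for `A`, `B ∈ TT N` then
`(A + B)(A + B) f = A A f + B B f + (A B f + B A f) = A A f + B B f` as `A B = B A`. (Use `Submodule.span_induction` with the membership proofs; scalars are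
`0`, `1`.) -/
def AF2_stmt : Prop := ∀ N : ℕ, 1 < N → ∀ A ∈ TT N, ∀ f : FF,
  coeff 1 (A (A f)) = coeff 1 (A (Psi N f))

/-- **AF3** (short, 50 lines). Operators preserve the series with exponents prime to `N`, and the spaces `VV`.
Proof. First part: `A = T n`, `n` prime to `N`: a term of the coefficient at `m` is `coeff (m n/d^2) f`, `d ∣ gcd m n`; if a prime `p` divides `m` and `N` then `p ∤ n`, so
`p ∤ d`, and `p` divides `m n/d^2 = (m/d)(n/d)`. Span induction. Second part: `A = T n`, `f = g ^ i`, `i < K`: `Gen.hec` and `VV_mono`. Span induction in `A` and `f`. -/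
def AF3_stmt : Prop :=
  (∀ N : ℕ, ∀ A ∈ TT N, ∀ f : FF, (∀ m : ℕ, coeff m f ≠ 0 → m.Coprime N) →
    ∀ m : ℕ, coeff m (A f) ≠ 0 → m.Coprime N) ∧
  ∀ (N : ℕ) (g : FF), Gen N g → ∀ A ∈ TT N, ∀ (K : ℕ), ∀ f ∈ VV N g K, A f ∈ VV N g K

/-- **FUN** (medium, 150 lines). Triangularity of the powers of `g = x + ...`. Only the fields `c0`, `c1`, `sup` of `Gen` are needed.
Proof. `coeff n (g ^ i) = 0` for `n < i` and `= 1` for `n = i` (`g = x h`, `h` with constant coefficient `1`).
(5) Every `f ∈ VV (i+1)` is `f' + c g ^ i` with `f' ∈ VV i` (span induction), `c ∈ {0, 1}`. If `i` is not prime to `N` then `VV (i+1) = VV i`.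
(1) Induction on `K`; `VV 0 = 0`. `f ∈ VV (K+1)`, say `K` prime to `N`, `f = f' + c g ^ K`; the coefficients `n < K` of `f` and `f'` agree, so `f' = 0` by induction,
and `c = coeff K f = 0`. (4) If `g ^ i ∈ VV i` then (1) with `K = i` gives `g ^ i = 0`, but `coeff i (g ^ i) = 1`.
(2) Induction on `K`: `h` for `K`; if `K` is prime to `N` and `coeff K h ≠ c K` add `g ^ K`.
(3) Show by induction on `j ≤ K`: there is a finite set `S` of numbers `n`, `K - j ≤ n < K`, prime to `N`, with `φ (g ^ i) = ∑_{n ∈ S} coeff n (g ^ i)` for all `i` prime to `N`,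
`K - j ≤ i < K`. Step to `i₀ = K - j - 1` (if prime to `N`): if the equation holds for `i₀` with `S` keep `S`, otherwise insert `i₀`: `coeff i₀ (g ^ i₀) = 1` and
`coeff i₀ (g ^ i) = 0` for `i > i₀`. `j = K` and span induction. -/
def FUN_stmt : Prop := ∀ (N : ℕ) (g : FF), Gen N g →
  (∀ K : ℕ, ∀ f ∈ VV N g K, (∀ n : ℕ, n < K → n.Coprime N → coeff n f = 0) → f = 0) ∧
  (∀ (K : ℕ) (c : ℕ → ZMod 2), ∃ h ∈ VV N g K, ∀ n : ℕ, n < K → n.Coprime N → coeff n h = c n) ∧
  (∀ (K : ℕ) (φ : FF →ₗ[ZMod 2] ZMod 2), ∃ S : Finset ℕ, (∀ n ∈ S, n < K ∧ n.Coprime N) ∧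
    ∀ f ∈ VV N g K, φ f = ∑ n ∈ S, coeff n f) ∧
  (∀ i : ℕ, i.Coprime N → g ^ i ∉ VV N g i) ∧
  ∀ i : ℕ, ∀ f ∈ VV N g (i + 1), f ∈ VV N g i ∨ (i.Coprime N ∧ f + g ^ i ∈ VV N g i)

/-- **PSV** (medium, 80 lines; uses ALG, AF1, AF2, AF3, FUN). `Psi N` preserves `VV N g K`.
Proof. `f ∈ VV K`. Let `h ∈ VV K` with `coeff n h = coeff n (Psi N f)` for `n < K` prime to `N` (FUN 2). We show `Psi N f = h`. At `n` not prime to `N` both
coefficients are `0` (definition of `Psi`, `Gen.sup`). Let `n ≥ K` be prime to `N`. FUN 3 with `φ = coeff n`: `S` with `coeff n f' = ∑_{m ∈ S} coeff m f'` for all `f' ∈ VV K`.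
Let `B = T n + ∑_{m ∈ S} T m ∈ TT N`. `B` kills `VV K`: for `f' ∈ VV K` and `k` prime to `N`, `coeff k (B f') = coeff 1 (B (T k f'))` (AF1)
`= coeff n (T k f') + ∑_{m ∈ S} coeff m (T k f') = 0` since `T k f' ∈ VV K` (AF3; `coeff 1 (T m f) = coeff m f`), and `B f' ∈ VV K`, so `B f' = 0` by FUN 1. Now
`0 = coeff 1 (B (B f)) = coeff 1 (B (Psi N f)) = coeff n (Psi N f) + ∑_{m ∈ S} coeff m (Psi N f)` (AF2) `= coeff n (Psi N f) + ∑_{m ∈ S} coeff m h = coeff n (Psi N f) + coeff n h`. -/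
def PSV_stmt : Prop := ∀ (N : ℕ) (g : FF), Gen N g → ∀ K : ℕ, ∀ f ∈ VV N g K, Psi N f ∈ VV N g K

/-- **SQR** (short, 50 lines; uses ALG, AF1, AF2, AF3). The squaring principle.
Proof. `f ∈ VV K`. Let `n` be prime to `N`. `A * A ∈ TT N`, so `coeff n (A (A f)) = coeff 1 (A (A (T n f)))` (AF1) `= coeff 1 (A (Psi N (T n f)))` (AF2) `= 0`, since `T n f ∈ VV K`
(AF3; `T n ∈ TT N`), `Psi N (T n f) ∈ VV L`. At `n` not prime to `N` the coefficient is `0` by AF3 (first part) and `Gen.sup` (elements of `VV K` have exponents prime to `N`). -/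
def SQR_stmt : Prop := ∀ (N : ℕ) (g : FF), Gen N g → ∀ K L : ℕ,
  (∀ f ∈ VV N g K, Psi N f ∈ VV N g L) → ∀ A ∈ TT N, (∀ f ∈ VV N g L, A f = 0) →
  ∀ f ∈ VV N g K, A (A f) = 0

/-- **SDF** (short, 80 lines). The function `sd` (binary digits read in base 4).
Proof. `Nat.digits 2 (2 n) = 0 :: Nat.digits 2 n` for `n > 0` and `Nat.digits 2 (2 n + 1) = 1 :: Nat.digits 2 n`. Superadditivity: strong induction on `a + b`,
`a = 2 c + α`, `b = 2 d + β`. If `α + β ≤ 1` then `sd (a + b) = 4 sd (c + d) + α + β ≥ 4 sd c + 4 sd d + α + β`. If `α = β = 1`: `sd (a + b) = 4 sd ((c + d) + 1) ≥ 4 (sd (c + d) + 1) ≥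
4 sd c + 4 sd d + 4`. Representation: strong induction on `k = 4 k' + α + 2 β` with `α, β ∈ {0, 1}`, `k' = sd a' + 2 sd b'`, `a = 2 a' + α`, `b = 2 b' + β`. The last formula:
`2^(k+1) - 2 = 2 (2^k - 1)`, `2^(k+1) - 1 = 2 (2^k - 1) + 1`, so `3 sd (2^k - 1) + 1 = 4^k` by induction. -/
def SDF_stmt : Prop := sd 0 = 0 ∧ (∀ n : ℕ, sd (2 * n) = 4 * sd n ∧ sd (2 * n + 1) = 4 * sd n + 1) ∧
  (∀ a b : ℕ, sd a + sd b ≤ sd (a + b)) ∧ (∀ k : ℕ, ∃ a b : ℕ, sd a + 2 * sd b = k) ∧
  ∀ k : ℕ, 1 ≤ k → 1 + 6 * sd (2 ^ k - 2) = 2 * 4 ^ k - 7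

end Pool.Agent.LQ
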