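import Pool.Agent.helper57.LQ.SpecA
import Pool.Agent.helper67.TPC.Spec

/-!
# Project lq (MP_ebc808_nt), Lemma Q: statements, part B (the series `tt`, `DD`, modular equations, Hecke stability)

`tt = ∑ x^(u^2)`, `u` prime to 6, `DD = ∑ x^(v^2)`, `v` odd, `DD(x^3) = tt^3`, `uu = ∑ x^(m^2)`, `3 ∤ m`. `ex p f = f(x^p)`.
-/

set_option autoImplicit false

open Finset PowerSeries

noncomputable section

namespace Pool.Agent.LQ

/-- **EXP** (short, 60 lines). Substitutions and Frobenius.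
Proof. `ex p` is `PowerSeries.expand p` (`ex_eq`), a ring homomorphism, `expand_mul` for the composition; `f ^ (2 ^ s) = ex (2 ^ s) f` is
`Pool.Agent.helper12.PE.pow_eq_expand`. `ex` commutes with `T n` for `n` prime to `p`: for `p ∣ m` the divisors `d` of `gcd m n` are those of
`gcd (m/p) n` and `(m n/d^2)/p = (m/p) n/d^2`; for `p ∤ m`, `p` prime: `p ∤ m n/d^2`. (State for `p` prime, then for powers of 2 by iteration.)
Last part: the coefficient at `m` of `T p f`, `p` prime, is `coeff (p m) f + [p ∣ m] coeff (m/p) f`. -/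
def EXP_stmt : Prop :=
  (∀ (p : ℕ) (f g : FF), p ≠ 0 → ex p (f * g) = ex p f * ex p g ∧ ex p (f + g) = ex p f + ex p g ∧
    ex p 1 = 1 ∧ ∀ k : ℕ, ex p (f ^ k) = ex p f ^ k) ∧
  (∀ (p q : ℕ) (f : FF), p ≠ 0 → q ≠ 0 → ex p (ex q f) = ex (p * q) f) ∧
  (∀ (s : ℕ) (f : FF), f ^ (2 ^ s) = ex (2 ^ s) f) ∧
  (∀ (p n : ℕ) (f : FF), p.Prime → n.Coprime p → T n (ex p f) = ex p (T n f)) ∧
  (∀ (n : ℕ) (f : FF), Odd n → T n (f ^ 2) = T n f ^ 2) ∧
  ∀ (p m : ℕ) (f : FF), p.Prime → coeff m (T p f) =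
    coeff (p * m) f + if p ∣ m then coeff (m / p) f else 0

open Classical in
/-- **TGR** (medium, 100 lines; uses EXP). The series `tt` and `DD`.
Proof. `tt`: `Pool.Agent.OD.V1` (Pool/Agent/helper59/OD/V1.lean) gives the coefficients of the Laurent series `Pool.Agent.EP.vvx`
`= HahnSeries.single 1 1 * HahnSeries.ofPowerSeries ℤ _ (PowerSeries.expand 24 _ EE)`, which is `HahnSeries.ofPowerSeries ℤ _ tt` (`HahnSeries.ofPowerSeries_X`). `tt = X * F(x^24)`, so the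
exponents of `tt ^ i` are `i mod 24`. `ex 3 DD = x^3 EE(x^3)^24 = x^3 EE(x^3)^(8*3) = x^3 (EE(x^24))^3 = tt^3` (Frobenius: `f^8 = f(x^8)`). `DD = x EE^24 = x (EE^3)^8 = x (EE^3)(x^8)`, so the
exponents of `DD ^ i` are `i mod 8`. The coefficients of `DD`: Pool/Agent/helper31/IG/F1.lean proves `im2 (X * EE ^ 24) = DDk` (see
`im2_coeff_nat`, `DDk_coeff` in Pool/Agent/helper7/IG/Basic.lean), or `VTH` of Pool/Agent/helper7/EP gives the coefficients of `tt^3 = DD(x^3)`. -/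
def TGR_stmt : Prop :=
  (∀ n : ℕ, coeff n tt = if ∃ u : ℕ, u.Coprime 6 ∧ n = u ^ 2 then 1 else 0) ∧
  (∀ n : ℕ, coeff n DD = if ∃ v : ℕ, Odd v ∧ n = v ^ 2 then 1 else 0) ∧
  ex 3 DD = tt ^ 3 ∧
  (∀ i m : ℕ, coeff m (tt ^ i) ≠ 0 → m % 24 = i % 24) ∧
  (∀ i m : ℕ, coeff m (DD ^ i) ≠ 0 → m % 8 = i % 8) ∧
  HahnSeries.ofPowerSeries ℤ (ZMod 2) tt = Pool.Agent.EP.vvx

/-- **GRD** (short, 70 lines; uses TGR). Grading. `J` a finite set.
Proof. Otherwise let `j₀` be the smallest `j ∈ J` with `j % 24 ≠ c % 24`. The coefficient at `j₀` of the sum: the terms `j ∈ J` with `coeff j₀ (tt ^ j) ≠ 0` have `j ≤ j₀` and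
`j % 24 = j₀ % 24 ≠ c % 24` (TGR), so only `j = j₀`, with coefficient `1`. So `j₀ % 24 = c % 24`, contradiction. The same for `DD`, 8. Third part: every element of the
span is the sum over a finite set `J` (span induction, symmetric difference, or `Finsupp`). -/
def GRD_stmt : Prop :=
  (∀ (J : Finset ℕ) (c : ℕ), (∀ m : ℕ, coeff m (∑ j ∈ J, tt ^ j) ≠ 0 → m % 24 = c % 24) →
    ∀ j ∈ J, j % 24 = c % 24) ∧
  (∀ (J : Finset ℕ) (c : ℕ), (∀ m : ℕ, coeff m (∑ j ∈ J, DD ^ j) ≠ 0 → m % 8 = c % 8) →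
    ∀ j ∈ J, j % 8 = c % 8) ∧
  ∀ (P : ℕ → Prop) (g : FF), ∀ f ∈ Submodule.span (ZMod 2) {f : FF | ∃ j : ℕ, P j ∧ f = g ^ j},
    ∃ J : Finset ℕ, (∀ j ∈ J, P j) ∧ f = ∑ j ∈ J, g ^ j

/-- **TDL** (medium-long, 180 lines; uses `TPC.TWD`, `EP.WM`, TGR, GRD, EXP). The Hecke operators `T l`, `l ≥ 5` prime, and the powers of `tt`.
Proof. Let `ι : FF → KK` be `HahnSeries.ofPowerSeries ℤ _`, `ι tt = vvx`, `ww * vvx = 1` (WM). (a) `(ww ^ r).coeff 0 = 0` for `r ≥ 1`: by WM it is `0` unless `r = 24 s`, `s ≥ 1`, and then it is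
`coeff s (PP ^ (24 s))`; `PP ^ (24 s) = (PP ^ (3 s)) ^ 8` is a series in `x^8`: if `8 ∤ s` it is `0`, if `s = 8 s'` it is `coeff s' (PP ^ (24 s'))`, which is `0` by strong induction.
(b) `(ι (tt ^ i) * ww ^ j).coeff 0 = [i = j]` for all `i, j ≥ 0`: it is `(ι (tt ^ (i-j))).coeff 0` or `(ww ^ (j-i)).coeff 0`. (c) If `IsT l F G` (`F, G : KK`) and `f` is a power series with
`coeff 0 f = 0` then `(ι (T l f) * F).coeff 0 = (ι f * G).coeff 0`: the left side is `∑_{n ≥ 1} (f_(l n) + [l ∣ n] f_(n/l)) F_(-n)` (finite), the right side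
`∑_{n ≥ 1} f_n (F_(-l n) + [l ∣ n] F_(-n/l))`; reindex. (d) Let `i ≥ 1`, `h = T l (tt ^ i)`, `coeff 0 h = 0`. For `m ≥ 1` put `c_m = (ι h * ww ^ m).coeff 0 = (ι (tt^i) * G_m).coeff 0`, `G_m` in the span of the
`ww ^ j`, `j ≥ m`, `j = l m mod 24` (TWD). By (b) `c_m = 0` for `m > i`, and `c_m ≠ 0` only if `i = l m mod 24`, i.e. `m = l i mod 24` (`l^2 = 1 mod 24`). Let `h' = h + ∑_{m ≤ i, m ≥ 1} c_m tt ^ m`. By (b)
`(ι h' * ww ^ m).coeff 0 = 0` for all `m ≥ 1`, and `coeff 0 h' = 0`. If `h' ≠ 0` let `r ≥ 1` be its order: `ww ^ r = x^(-r) + ` higher terms (WM), so `(ι h' * ww ^ r).coeff 0 = 1`,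
contradiction. So `h' = 0`. -/
def TDL_stmt : Prop := ∀ l : ℕ, l.Prime → 5 ≤ l → ∀ i : ℕ, 1 ≤ i →
  T l (tt ^ i) ∈ Submodule.span (ZMod 2)
    {f : FF | ∃ j : ℕ, (1 ≤ j ∧ j ≤ i ∧ j % 24 = l * i % 24) ∧ f = tt ^ j}

/-- **GN6** (short, 80 lines; uses TDL, HRC, TGR). `tt` is a generator of level 6.
Proof. `sup`: exponents of `tt ^ i` are `i mod 24` (TGR). `hec`: strong induction on `n`. `n = 1`: `T 1 = 1`. `n = l n'`, `l ≥ 5` prime: HRC: `T n = T l * T n' + [l ∣ n'] T (n'/l)`.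
By induction `T n' (tt ^ i)` and `T (n'/l) (tt ^ i)` are in `VV 6 tt (i+1)`, and `T l` maps `VV 6 tt (i+1)` to itself by TDL (`j % 24 = l k % 24` is prime to 6 if `l`, `k` are). -/
def GN6_stmt : Prop := Gen 6 tt

/-- **ME3** (short, 60 lines; uses TGR, EXP). The modular equation of degree 3.
Proof. `r = ex 9 DD`. `DD = tt + r` (TGR: odd `v` prime to 3, resp. divisible by 3), `ex 3 DD = tt ^ 3`. `F = DD^4 + (ex 3 DD)^4 + DD * ex 3 DD = tt^4 + r^4 + tt^12 + tt^4 + r tt^3 = r^4 + tt^12 + r tt^3`, and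
`ex 3 F = (ex 3 DD)^4 + (ex 9 DD)^4 + ex 3 DD * ex 9 DD = tt^12 + r^4 + tt^3 r`. So `F = ex 3 F`; `coeff 0 F = 0`; if `F ≠ 0` its order `k ≥ 1` equals `3 k`, contradiction. -/
def ME3_stmt : Prop := DD = tt + ex 9 DD ∧ DD ^ 4 + ex 3 DD ^ 4 = DD * ex 3 DD

/-- **MEN** (medium, 150 lines; uses `EP.TW`, `EP.NEG`, `EP.WM`). A principle for modular equations: `l ≥ 5` prime, `wl = ww(x^l)`, `S(Y, Z) = ∑ c i j Y^i Z^j` symmetric, `F = S(ww, wl)`. If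
`F` has no terms at exponents `≤ 0` then `F = 0`. (`exL l F` is `F(x^l)`.)
Proof. `F ^ l = ∑_{i, j} e_ij ww^i wl^j`, a finite sum with `e_ij = e_ji` (a power of a symmetric polynomial: let `s` be the polynomial in `(ZMod 2)[Y][Z]`, or prove: the products of two finite sums of this
shape have this shape). Let `U G` be the Laurent series with coefficients `G.coeff (l M)`. `U (G * exL l H) = U G * H`. So `U (F^l) = ∑ e_ij (U ww^i) ww^j` and by symmetry `F^l = ∑ e_ij wl^i ww^j`. `U (ww^i) + wl^i` has the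
coefficients of `T_l (ww^i)`: for `i ≥ 1` it is in `WW` (TW with `f = ww^i`), for `i = 0` it is `1 + 1 = 0`. So `U (F^l) + F^l = ∑ e_ij ww^j T_l(ww^i)` is in `WW`. If `F ≠ 0` has order `k ≥ 1` then `F^l` has order
`l k`, both have no terms at exponents `≤ 0`, so by NEG `U (F^l) = F^l`. But the coefficient of `U (F^l)` at `k` is that of `F^l` at `l k`, which is `1`, and the coefficient of `F^l` at `k < l k` is `0`. -/
def MEN_stmt : Prop := ∀ (l n : ℕ) (c : ℕ → ℕ → ZMod 2), l.Prime → 5 ≤ l → (∀ i j, c i j = c j i) →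
  ∀ wl : Pool.Agent.EP.KK,
    (∀ M : ℤ, wl.coeff M = if (l : ℤ) ∣ M then Pool.Agent.EP.ww.coeff (M / l) else 0) →
    (∀ M : ℤ, M ≤ 0 → (∑ i ∈ range n, ∑ j ∈ range n,
      c i j • (Pool.Agent.EP.ww ^ i * wl ^ j)).coeff M = 0) →
    ∑ i ∈ range n, ∑ j ∈ range n, c i j • (Pool.Agent.EP.ww ^ i * wl ^ j) = 0

/-- **ME7** (medium, 120 lines; uses MEN, TGR, EXP, `EP.WM`). The modular equation of degree 7. `z = ex 7 tt`.
Proof. `w = ww`, `w7 = w(x^7) = 1/ι z` (`ι = HahnSeries.ofPowerSeries`). Multiply by `w^8 w7^8`: the claim is `F := w7^8 + w^8 + w^4 w7^4 + w^7 w7^7 = 0` (symmetric). By MEN only exponents `≤ 0` matter. `w = x^(-1) P(x^24)`,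
`P = 1 + q + q^3 + ...` (`PP`, `EE = 1 + q + q^2 + q^5 + ...` modulo 2). `w^8 = x^(-8) + O(x^184)`; `w7^8 = x^(-56) + O(x)`; `w^4 w7^4 = x^(-32) P(x^24)^4 P(x^168)^4 = x^(-32) + O(x^64)`; `w^7 w7^7 = x^(-56) P(x^24)^7 P(x^168)^7` and
`P^7 = E P^8 = 1 + q + q^2 + O(q^5)` (`P E = 1`, `P^8 = P(q^8)`), so it is `x^(-56) + x^(-32) + x^(-8) + O(x)`. The sum is `O(x)`. (It may be easier to multiply by `x^56` and to work with power series modulo `x^57`.) -/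
def ME7_stmt : Prop := tt ^ 8 + ex 7 tt ^ 8 = tt ^ 4 * ex 7 tt ^ 4 + tt * ex 7 tt

/-- **ME5** (medium, 120 lines; uses MEN, TGR, EXP, `EP.WM`). The modular equation of degree 5. `z = ex 5 DD`.
Proof. `ex 3` is injective, `ex 3 DD = tt^3`: the claim is `(t^3 + s^3)^6 = t^3 s^3` with `t = tt`, `s = ex 5 tt`. Multiply by `w^18 w5^18`, `w = ww = 1/t`, `w5 = w(x^5) = 1/s`: `F := (w^3 + w5^3)^6 + w^15 w5^15 =
w^18 + w^12 w5^6 + w^6 w5^12 + w5^18 + w^15 w5^15 = 0` (symmetric; `(a+b)^6 = (a^2+b^2)(a^4+b^4)`). By MEN only exponents `≤ 0` matter. With `w^3 = x^(-3) (P^3)(x^24)`, `P^3 = E P^4 = 1 + q + q^2 + O(q^4)`: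
`w^6 = x^(-6)(1 + x^48 + x^96 + ...)`, `w^12 = x^(-12)(1 + x^96 + ...)`, `w^18 = w^6 w^12 = x^(-18) + O(x^30)`; `w5^6 = x^(-30) + O(x^210)`, `w5^12 = x^(-60) + O(x^420)`. So
`w^18 → x^(-18)`, `w^12 w5^6 → x^(-42)`, `w^6 w5^12 → x^(-66) + x^(-18)`, `w5^18 → x^(-90)`, and `w^15 w5^15 = x^(-90) P(x^24)^15 P(x^120)^15` with `P^15 = E P^16 = 1 + q + q^2 + O(q^5)`: `x^(-90) + x^(-66) + x^(-42) + O(x)`. The sum is `O(x)`. -/
def ME5_stmt : Prop := DD ^ 6 + DD ^ 4 * ex 5 DD ^ 2 + DD ^ 2 * ex 5 DD ^ 4 + ex 5 DD ^ 6 = DD * ex 5 DD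

/-- **HT3** (medium, 150 lines; uses ME3, TGR, EXP, GRD). `T 3 (DD ^ k)` for odd `k`.
Proof. `U f` := series with coefficients `coeff (3 m) f`; `T 3 f = U f + ex 3 f` (EXP), `U (ex 3 h * f) = h * U f`. Put `z = ex 3 DD`, `p k = T 3 (DD ^ k)`. (A) `p (k+4) = DD * p (k+1) + DD^4 * p k`: multiply ME3 by `DD^k`: `DD^(k+4) = z DD^(k+1) + z^4 DD^k`, apply `U`;
and `ex 3 (DD^(k+4)) = z^(k+4) = z^k (DD z + DD^4)`. (B) `p (2k) = (p k)^2` (EXP). (C) `p 0 = 0`; `p 1 = 0`: `U DD = ex 3 DD` (`3 m = v^2` iff `m = 3 w^2`); `p 2 = 0`; `p 3 = DD`: with `r = ex 9 DD`, `DD^3 = tt^3 + tt^2 r + tt r^2 + r^3`; the exponents of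
`tt^2 r` are `2 mod 3`, those of `tt r^2` are `1 mod 3`, `tt^3 = ex 3 DD`, `r^3 = ex 9 (DD^3)`, so `U (DD^3) = DD + ex 3 (DD^3)`. (D) For all `k`: `p k` is in the span of the `DD^j`, `j + 2 ≤ k`, `j = k mod 2` (strong induction: even `k ≥ 2` by (B): squares of sums are sums of squares;
odd `k ≥ 5` by (A)). (E) odd `k ≥ 5`: `k - 3` is even, `p (k-3) = (p ((k-3)/2))^2` is in the span of the `DD^j`, `j` even, `j ≤ k - 7`, so `DD * p (k-3) ∈ VV 2 DD (k-2)`; `DD^4 * p (k-4)` has the leading term of `p (k-4)`, moved by 4. Induction. (Natural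
subtraction: `VV 2 DD 0 = VV 2 DD 1 = 0`.) -/
def HT3_stmt : Prop := ∀ k : ℕ, Odd k →
  T 3 (DD ^ k) + (if k % 4 = 3 then DD ^ (k - 2) else 0) ∈ VV 2 DD (k - 2)

/-- **GN2** (medium, 100 lines; uses TDL, HT3, HRC, TGR, EXP, GRD). `DD` is a generator of level 2.
Proof. `sup`: exponents of `DD ^ i` are `i mod 8` (TGR). `hec`: first `n = l ≥ 5` prime: `ex 3 (T l (DD^i)) = T l (ex 3 (DD^i))` (EXP) `= T l (tt^(3i))` is a sum of `tt^j`, `1 ≤ j ≤ 3i`, `j = 3 l i mod 24` (TDL), so `3 ∣ j` and `tt^j = ex 3 (DD^(j/3))`, `j/3 = l i mod 8` odd,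
`j/3 ≤ i`; `ex 3` is injective. `n = 3`: HT3. General `n` by strong induction with HRC, as in GN6. -/
def GN2_stmt : Prop := Gen 2 DD

/-- **HT5** (medium, 150 lines; uses ME5, GN2, TGR, EXP, GRD). `T 5 (DD ^ k)` for odd `k`.
Proof. As HT3: `U f` with coefficients `coeff (5 m) f`, `T 5 f = U f + ex 5 f`, `z = ex 5 DD`, `p k = T 5 (DD ^ k)`. (A) ME5 is symmetric, so `p (k+6) = DD^2 p (k+4) + DD^4 p (k+2) + DD p (k+1) + DD^6 p k`. (B) `p (2k) = (p k)^2`.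
(C) `p 0 = 0`, `p 1 = 0` (`U DD = ex 5 DD`), so `p 2 = p 4 = 0`. `p 3 ∈ VV 2 DD 4` (GN2) is a sum of `DD^j`, `j ≤ 3` odd, with exponents `15 = 7 mod 8`, so `p 3 = 0` (GRD). `p 5 ∈ VV 2 DD 6` has exponents `25 = 1 mod 8`, so `p 5 = c DD`, `c = coeff 1 (T 5 (DD^5)) = coeff 5 (DD^5) = 1`.
(D) For all `k`: `p k` is in the span of the `DD^j`, `j + 4 ≤ k`, `j = k mod 2` (strong induction by (A), (B), (C)). (E) For odd `k ≥ 7`: `DD * p (k-5)`, `k - 5` even, is in the span of the `DD^j`, `j ≤ k - 12`. The other three terms move leading terms by `2, 4, 6`: the coefficient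
`λ k` of `DD^(k-4)` in `p k` is `λ (k-2) + λ (k-4) + λ (k-6)`. With `λ 1 = λ 3 = 0`, `λ 5 = 1` this gives `λ k = 1` iff `k % 8 = 5` or `7`. -/
def HT5_stmt : Prop := ∀ k : ℕ, Odd k →
  T 5 (DD ^ k) + (if k % 8 = 5 ∨ k % 8 = 7 then DD ^ (k - 4) else 0) ∈ VV 2 DD (k - 4)

/-- **HT7** (medium, 170 lines; uses ME7, TDL, TGR, EXP, GRD). `T 7 (tt ^ k)` for `k` prime to 6.
Proof. As HT3: `U f` with coefficients `coeff (7 m) f`, `T 7 f = U f + ex 7 f`, `z = ex 7 tt`, `p k = T 7 (tt ^ k)` for all `k ≥ 0`. (A) ME7 is symmetric, so `p (k+8) = tt^4 p (k+4) + tt p (k+1) + tt^8 p k`. (B) `p (2k) = (p k)^2`. (C) `p 0 = 0`. For `1 ≤ k ≤ 7` TDL says that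
`p k` is in the span of the `tt^j`, `1 ≤ j ≤ k`, `j = 7 k mod 24`: nothing for `k = 1, 2, 3, 5, 6` (`7, 14, 21, 35, 42`), `p 4 = (p 2)^2 = 0`, and `p 7 = c tt`, `c = coeff 1 (T 7 (tt^7)) = coeff 7 (tt^7) = 1`. (D) For all `k`: `p k` is in the span of the `tt^j`, `j + 6 ≤ k` (strong induction).
(E) For odd `k ≥ 9`: `tt * p (k-7)`, `k - 7` even, `p (k-7) = (p ((k-7)/2))^2`, is in the span of the `tt^j`, `j + 18 ≤ k`. So the coefficient `λ k` of `tt^(k-6)` in `p k` is `λ (k-4) + λ (k-8)`, i.e. `p k + λ k tt^(k-6)` is in the span of the `tt^j`, `j + 6 < k`; with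
`λ 1 = λ 3 = λ 5 = 0`, `λ 7 = 1`: `λ k = 1` iff `k % 12 = 7` or `11` (`k` odd). (F) For `k` prime to 6 the exponents of `p k` and of `tt^(k-6)` (if `λ k = 1`: `k = 3 mod 4`, so `k - 6 = 7 k mod 24`) are `7 k mod 24` (TDL/TGR), so by GRD the sum of the `tt^j`, `j + 6 < k`, only contains `j = 7 k mod 24`,
which are prime to 6. -/
def HT7_stmt : Prop := ∀ k : ℕ, k.Coprime 6 →
  T 7 (tt ^ k) + (if k % 12 = 7 ∨ k % 12 = 11 then tt ^ (k - 6) else 0) ∈ VV 6 tt (k - 6)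

/-- **UID** (short, 60 lines; uses TGR, ME3, EXP). The series `uu`.
Proof. `uu = (odd m) + (even m) = tt + ex 4 uu = tt + uu^4` (`m` with `3 ∤ m`). `r = ex 9 DD` satisfies `r^4 + tt^12 = tt^3 r` (ME3 with `x^3` for `x`: `ex 3 DD = tt^3`). `ρ = r + tt uu^8`: `ρ^4 = r^4 + tt^4 uu^32 = tt^12 + tt^3 r + tt^4 uu^32`, and `tt^8 + uu^8 + uu^32 = (tt + uu + uu^4)^8 = 0`, so
`ρ^4 = tt^3 r + tt^4 uu^8 = tt^3 ρ`. If `ρ ≠ 0` then `ρ^3 = tt^3` (domain), but `ρ` has order `≥ 9` (`coeff n ρ = 0` for `n < 9`) and `tt^3` has order 3. So `r = tt uu^8`, `DD = tt + r`. -/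
def UID_stmt : Prop := tt = uu + uu ^ 4 ∧ ex 9 DD = tt * uu ^ 8 ∧ DD = tt + tt * uu ^ 8

/-- **P3D** (medium, 90 lines; uses UID, TGR, ME3). The part of `DD ^ j` with exponents prime to 3.
Proof. `DD^j = (tt + r)^j = ∑_i C(j,i) tt^i r^(j-i)`, `r = ex 9 DD = tt uu^8`. The exponents of `tt^i r^(j-i)` are `i mod 3` (TGR). So `P3 (DD^j) = ∑_{i ≤ j, 3 ∤ i} C(j,i) tt^i r^(j-i) = ∑_{i ≤ j, 3 ∤ i} C(j,i) tt^j uu^(8(j-i))` (`P3` is additive, the identity on series with exponents prime to 3 and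
`0` on series with exponents divisible by 3), and with `tt = uu + uu^4` this is the value at `uu` of a polynomial of degree `≤ 4 j + 8 (j - 1)` (`i ≥ 1`). `j = 1`: `P3 DD = tt`. -/
def P3D_stmt : Prop := P3 DD = tt ∧ (∀ f g : FF, P3 (f + g) = P3 f + P3 g) ∧
  ∀ j : ℕ, 1 ≤ j → ∃ F : Polynomial (ZMod 2), F.natDegree ≤ 12 * j - 8 ∧
    Polynomial.aeval uu F = P3 (DD ^ j)

end Pool.Agent.LQ
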